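import Pool.Agent.E8helper29.Zn.Stm3

/-!
# Project ZU (poster helper29): pieces ZU-1 `StmPack` and ZU-2 `StmNet`, `StmCell`
-/

set_option autoImplicit false

namespace Pool.Agent.E8helper63.Zu

open MeasureTheory Pool.Agent.E8helper29.Zn Pool.Agent.Helper649.Zono Metric

lemma pow_sub_le (a b : ℝ) (hb : 0 ≤ b) (hab : b ≤ a) (m : ℕ) :
    a ^ (m + 1) - b ^ (m + 1) ≤ (m + 1) * (a - b) * a ^ m := by
  have ha : 0 ≤ a := hb.trans hab
  induction m with
  | zero => simp
  | succ m ih =>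
    have h1 : b ^ (m + 1) ≤ a ^ (m + 1) := pow_le_pow_left₀ hb hab _
    have h2 := mul_le_mul_of_nonneg_left ih ha
    have h3 := mul_le_mul_of_nonneg_right h1 (sub_nonneg.2 hab)
    calc a ^ (m + 1 + 1) - b ^ (m + 1 + 1)
        = a * (a ^ (m + 1) - b ^ (m + 1)) + b ^ (m + 1) * (a - b) := by ring
      _ ≤ a * ((m + 1) * (a - b) * a ^ m) + a ^ (m + 1) * (a - b) := add_le_add h2 h3
      _ = ((m + 1 : ℕ) + 1) * (a - b) * a ^ (m + 1) := by push_cast; ring

lemma real_ball {m : ℕ} (x : E (m + 1)) {r : ℝ} (hr : 0 ≤ r) :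
    (volume : Measure (E (m + 1))).real (ball x r) =
      r ^ (m + 1) * (volume : Measure (E (m + 1))).real (ball 0 1) := by
  have hfr : Module.finrank ℝ (E (m + 1)) = m + 1 := by simp
  rw [Measure.real, Measure.addHaar_ball _ _ hr, hfr, ENNReal.toReal_mul,
    ENNReal.toReal_ofReal (by positivity)]
  rfl

/-- **U1.** -/
theorem u1 : StmPack := by
  intro n δ s hn hδ hδ1 hs hsep
  obtain ⟨m, rfl⟩ : ∃ m, n = m + 1 := ⟨n - 1, by omega⟩
  rw [Nat.add_sub_cancel]
  have hfr : Module.finrank ℝ (E (m + 1)) = m + 1 := by simp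
  set t : ℝ := δ / 2 with ht
  have ht0 : 0 < t := by positivity
  have ht1 : t ≤ 1 / 2 := by linarith
  set v : ℝ := (volume : Measure (E (m + 1))).real (ball 0 1) with hv
  have hv0 : 0 < v := by
    rw [hv, Measure.real]
    exact ENNReal.toReal_pos (measure_ball_pos _ _ one_pos).ne' measure_ball_lt_top.ne
  have hdisj : (s : Set (E (m + 1))).PairwiseDisjoint (fun x => ball x t) := by
    intro x hx y hy hxy
    apply ball_disjoint_ball
    have := hsep x hx y hy hxy
    rw [dist_eq_norm]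
    linarith
  have h1 : (volume : Measure (E (m + 1))).real (⋃ x ∈ s, ball x t) = s.card * (t ^ (m + 1) * v) := by
    rw [measureReal_biUnion_finset hdisj (fun x _ => measurableSet_ball)
      (fun x _ => measure_ball_lt_top.ne)]
    rw [Finset.sum_congr rfl (g := fun _ => t ^ (m + 1) * v)]
    · rw [Finset.sum_const, nsmul_eq_mul]
    · intro x _
      rw [real_ball _ ht0.le]
  have h2 : (volume : Measure (E (m + 1))).real (closedBall 0 (1 - t)) = (1 - t) ^ (m + 1) * v := by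
    rw [Measure.addHaar_real_closedBall _ _ (by linarith), hfr]
  have h3 : (volume : Measure (E (m + 1))).real (ball 0 (1 + t)) = (1 + t) ^ (m + 1) * v := by
    rw [real_ball _ (by linarith)]
  have h4 : Disjoint (⋃ x ∈ s, ball x t) (closedBall (0 : E (m + 1)) (1 - t)) := by
    rw [Set.disjoint_iUnion₂_left]
    intro x hx
    apply Set.disjoint_left.2
    intro z hz hz'
    rw [mem_ball, dist_eq_norm] at hz
    rw [mem_closedBall, dist_zero_right] at hz'
    have h5 := norm_sub_norm_le x z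
    rw [norm_sub_rev, hs x hx] at h5
    linarith
  have h5 : (⋃ x ∈ s, ball x t) ∪ closedBall (0 : E (m + 1)) (1 - t) ⊆ ball 0 (1 + t) := by
    apply Set.union_subset
    · apply Set.iUnion₂_subset
      intro x hx z hz
      rw [mem_ball, dist_eq_norm] at hz
      rw [mem_ball, dist_zero_right]
      have h6 := norm_le_norm_add_norm_sub x z
      rw [hs x hx] at h6
      have h7 : ‖x - z‖ < t := by rwa [norm_sub_rev]
      linarith [norm_sub_rev x z]
    · apply closedBall_subset_ball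
      linarith
  have h6 : (s.card : ℝ) * (t ^ (m + 1) * v) + (1 - t) ^ (m + 1) * v ≤ (1 + t) ^ (m + 1) * v := by
    rw [← h1, ← h2, ← h3, ← measureReal_union h4 measurableSet_closedBall
      ((measure_biUnion_lt_top s.finite_toSet (fun x _ => measure_ball_lt_top)).ne)
      measure_closedBall_lt_top.ne]
    exact measureReal_mono h5 measure_ball_lt_top.ne
  have h7 : (s.card : ℝ) * t ^ (m + 1) ≤ (1 + t) ^ (m + 1) - (1 - t) ^ (m + 1) := by
    by_contra hcon
    push Not at hcon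
    have := mul_lt_mul_of_pos_right hcon hv0
    linarith
  have h8 := pow_sub_le (1 + t) (1 - t) (by linarith) (by linarith) m
  have h9 : (s.card : ℝ) * t ^ (m + 1) ≤ 2 * (m + 1) * (1 + t) ^ m * t := by
    refine (h7.trans h8).trans (le_of_eq ?_)
    ring
  have h10 : (s.card : ℝ) * t ^ m ≤ 2 * (m + 1) * (1 + t) ^ m := by
    rw [pow_succ, ← mul_assoc] at h9
    exact le_of_mul_le_mul_right h9 ht0
  have h11 : (s.card : ℝ) ≤ 2 * (m + 1) * ((1 + t) / t) ^ m := by
    rw [div_pow, mul_div_assoc', le_div_iff₀ (by positivity)]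
    exact h10
  have h12 : (1 + t) / t ≤ 3 / δ := by
    rw [div_le_div_iff₀ ht0 hδ, ht]
    nlinarith
  have h13 : ((1 + t) / t) ^ m ≤ (3 / δ) ^ m := pow_le_pow_left₀ (by positivity) h12 m
  push_cast
  calc (s.card : ℝ) ≤ 2 * (m + 1) * ((1 + t) / t) ^ m := h11
    _ ≤ 2 * (m + 1) * (3 / δ) ^ m := mul_le_mul_of_nonneg_left h13 (by positivity)

/-- maximal separated subsets -/
lemma exists_max (h : StmPack) (n : ℕ) (δ : ℝ) (hn : 1 ≤ n) (hδ : 0 < δ) (hδ1 : δ ≤ 1)
    (U : Set (E n)) (hU : ∀ x ∈ U, ‖x‖ = 1) :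
    ∃ s : Finset (E n), (s.card : ℝ) ≤ 2 * n * (3 / δ) ^ (n - 1) ∧ (∀ x ∈ s, x ∈ U) ∧
      ∀ x ∈ U, ∃ y ∈ s, ‖x - y‖ ≤ δ := by
  classical
  set P : ℕ → Prop := fun k => ∃ s : Finset (E n), s.card = k ∧ (∀ x ∈ s, x ∈ U) ∧
    ∀ x ∈ s, ∀ y ∈ s, x ≠ y → δ < ‖x - y‖ with hP
  have hb : ∀ k, P k → (k : ℝ) ≤ 2 * n * (3 / δ) ^ (n - 1) := by
    rintro k ⟨s, hk, h1, h2⟩
    rw [← hk]
    exact h n δ s hn hδ hδ1 (fun x hx => hU x (h1 x hx)) h2
  have hb' : ∀ k, P k → k ≤ ⌊2 * n * (3 / δ) ^ (n - 1)⌋₊ := fun k hk => Nat.le_floor (hb k hk)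
  have h0 : P 0 := ⟨∅, rfl, by simp, by simp⟩
  have hmax := Nat.findGreatest_spec (P := P) (Nat.zero_le ⌊2 * n * (3 / δ) ^ (n - 1)⌋₊) h0
  obtain ⟨s, hk, h1, h2⟩ := hmax
  refine ⟨s, ?_, h1, ?_⟩
  · rw [hk]
    exact hb _ (hk ▸ ⟨s, rfl, h1, h2⟩)
  · intro x hx
    by_contra hcon
    push Not at hcon
    have hxs : x ∉ s := fun hxs => by
      have := hcon x hxs
      simp at this
      linarith
    have h3 : P (s.card + 1) := by
      refine ⟨insert x s, Finset.card_insert_of_notMem hxs, ?_, ?_⟩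
      · intro y hy
        rcases Finset.mem_insert.1 hy with rfl | hy
        · exact hx
        · exact h1 y hy
      · intro y hy z hz hyz
        rcases Finset.mem_insert.1 hy with rfl | hy'
        · rcases Finset.mem_insert.1 hz with rfl | hz'
          · exact absurd rfl hyz
          · exact hcon z hz'
        · rcases Finset.mem_insert.1 hz with rfl | hz'
          · rw [norm_sub_rev]
            exact hcon y hy'
          · exact h2 y hy' z hz' hyz
    have h4 := Nat.le_findGreatest (hb' _ h3) h3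
    omega

/-- **U2a.** -/
theorem u2a (h : StmPack) : StmNet := by
  intro n θ hn hθ hθ1
  obtain ⟨s, h1, h2, h3⟩ := exists_max h n θ hn hθ hθ1 {x | ‖x‖ = 1} (fun x hx => hx)
  refine ⟨s.card, fun i => (s.equivFin.symm i : E n), h1, fun i => h2 _ (s.equivFin.symm i).2, ?_⟩
  intro x hx
  obtain ⟨y, hy, hxy⟩ := h3 x hx
  exact ⟨s.equivFin ⟨y, hy⟩, by simpa using hxy⟩

/-- **U2b.** -/
theorem u2b (h : StmPack) : StmCell := by
  classical
  intro n M δ w hn hδ hδ1 hw
  obtain ⟨s, h1, h2, h3⟩ := exists_max h n δ hn hδ hδ1 (Set.range w)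
    (by rintro _ ⟨j, rfl⟩; exact hw j)
  have h4 : ∀ j, ∃ y ∈ s, ‖w j - y‖ ≤ δ := fun j => h3 (w j) ⟨j, rfl⟩
  choose c hc hcd using h4
  refine ⟨s.card, fun j => s.equivFin ⟨c j, hc j⟩, h1, ?_⟩
  intro i j hij
  have h5 : c i = c j := by
    have := s.equivFin.injective hij
    exact congrArg Subtype.val this
  have h6 := norm_sub_le (w i - c i) (w j - c j)
  rw [h5, sub_sub_sub_cancel_right] at h6
  have h7 := hcd i
  have h8 := hcd j
  rw [h5] at h7
  linarith

end Pool.Agent.E8helper63.Zu
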