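import Pool.Agent.E8helper29.Zn.Stm3

/-!
# Project ZU (poster helper29): piece ZU-5 `StmNS`
-/

set_option autoImplicit false

namespace Pool.Agent.E8helper63.Zu

open MeasureTheory Pool.Agent.E8helper29.Zn Pool.Agent.Helper649.Zono Metric
open scoped RealInnerProductSpace

/-- **U5.** -/
theorem u5 : StmNS := by
  intro n A J _ ε x y hε hε2 hy hnet hval
  set h : E n → ℝ := fun v => ∑ j, |⟪v, x j⟫| with hh
  have hadd : ∀ v w, h (v + w) ≤ h v + h w := by
    intro v w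
    simp only [hh]
    rw [← Finset.sum_add_distrib]
    apply Finset.sum_le_sum
    intro j _
    rw [inner_add_left]
    exact abs_add_le _ _
  have hsmul : ∀ (c : ℝ) v, h (c • v) = |c| * h v := by
    intro c v
    simp only [hh]
    rw [Finset.mul_sum]
    apply Finset.sum_congr rfl
    intro j _
    rw [real_inner_smul_left, abs_mul]
  have h0 : ∀ v, 0 ≤ h v := fun v => Finset.sum_nonneg fun j _ => abs_nonneg _
  have hbd : ∀ v, h v ≤ (∑ j, ‖x j‖) * ‖v‖ := by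
    intro v
    simp only [hh]
    rw [Finset.sum_mul]
    apply Finset.sum_le_sum
    intro j _
    rw [mul_comm]
    exact abs_real_inner_le_norm _ _
  have hBdd : BddAbove (h '' {v | ‖v‖ = 1}) := by
    refine ⟨∑ j, ‖x j‖, ?_⟩
    rintro _ ⟨v, hv, rfl⟩
    have := hbd v
    rw [show ‖v‖ = 1 from hv, mul_one] at this
    exact this
  have hH : ∃ H : ℝ, 0 ≤ H ∧ (∀ v, ‖v‖ = 1 → h v ≤ H) ∧
      ((∃ v : E n, ‖v‖ = 1) → ∀ c : ℝ, (∀ v, ‖v‖ = 1 → h v ≤ c) → H ≤ c) := by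
    refine ⟨sSup (h '' {v | ‖v‖ = 1}), ?_, ?_, ?_⟩
    · apply Real.sSup_nonneg
      rintro _ ⟨v, -, rfl⟩
      exact h0 v
    · intro v hv
      exact le_csSup hBdd ⟨v, hv, rfl⟩
    · rintro ⟨v, hv⟩ c hc
      apply csSup_le (show (h '' {v | ‖v‖ = 1}).Nonempty from ⟨h v, v, hv, rfl⟩)
      rintro _ ⟨w, hw, rfl⟩
      exact hc w hw
  obtain ⟨H, hH0, hH1, hH2⟩ := hH
  have hscale : ∀ v, h v ≤ H * ‖v‖ := by
    intro v
    rcases eq_or_ne v 0 with rfl | hv
    · simp [hh]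
    · have hv' : 0 < ‖v‖ := norm_pos_iff.2 hv
      have h1 : h v = ‖v‖ * h (‖v‖⁻¹ • v) := by
        rw [hsmul, abs_of_pos (by positivity), ← mul_assoc, mul_inv_cancel₀ hv'.ne', one_mul]
      rw [h1, mul_comm]
      apply mul_le_mul_of_nonneg_right _ hv'.le
      apply hH1
      rw [norm_smul, norm_inv, norm_norm, inv_mul_cancel₀ hv'.ne']
  have hup : ∀ v, ‖v‖ = 1 → h v ≤ 1 + ε / 4 + ε / 4 * H := by
    intro v hv
    obtain ⟨i, hi⟩ := hnet v hv
    have h1 : h v ≤ h (y i) + h (v - y i) := by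
      have := hadd (y i) (v - y i)
      rwa [add_sub_cancel] at this
    have h2 := (abs_le.1 (hval i)).2
    have h3 := hscale (v - y i)
    have h4 := mul_le_mul_of_nonneg_left hi hH0
    change h (y i) - 1 ≤ ε / 4 at h2
    linarith
  have hlo : ∀ v, ‖v‖ = 1 → 1 - ε / 4 - ε / 4 * H ≤ h v := by
    intro v hv
    obtain ⟨i, hi⟩ := hnet v hv
    have h1 : h (y i) ≤ h v + h (y i - v) := by
      have := hadd v (y i - v)
      rwa [add_sub_cancel] at this
    have h2 := (abs_le.1 (hval i)).1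
    have h3 := hscale (y i - v)
    rw [norm_sub_rev] at h3
    have h4 := mul_le_mul_of_nonneg_left hi hH0
    change -(ε / 4) ≤ h (y i) - 1 at h2
    linarith
  have hunit : ∀ v, ‖v‖ = 1 → 1 - ε ≤ h v ∧ h v ≤ 1 + ε := by
    intro v hv
    have h1 : H ≤ 1 + ε / 4 + ε / 4 * H := hH2 ⟨v, hv⟩ _ hup
    have h2 : H ≤ 9 / 7 := by nlinarith
    have h3 := hup v hv
    have h4 := hlo v hv
    constructor <;> nlinarith
  intro v
  change (1 - ε) * ‖v‖ ≤ h v ∧ h v ≤ (1 + ε) * ‖v‖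
  rcases eq_or_ne v 0 with rfl | hv
  · simp [hh]
  · have hv' : 0 < ‖v‖ := norm_pos_iff.2 hv
    have h1 : h v = ‖v‖ * h (‖v‖⁻¹ • v) := by
      rw [hsmul, abs_of_pos (by positivity), ← mul_assoc, mul_inv_cancel₀ hv'.ne', one_mul]
    have h2 := hunit (‖v‖⁻¹ • v) (by rw [norm_smul, norm_inv, norm_norm, inv_mul_cancel₀ hv'.ne'])
    rw [h1]
    constructor <;> nlinarith [h2.1, h2.2]

end Pool.Agent.E8helper63.Zu
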